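import Pool.Agent.H44.MS.Basics

/-!
# The least coordinate in a representation by three squares: the middle divisors of the numbers
with few prime factors
-/

set_option autoImplicit false

namespace Pool.Agent.H86.MS

open Finset Real
open Pool.Agent.H44.MS

/-- Sums over multiples. -/
theorem b1_mult (N e : ℕ) (he : 0 < e) (F : ℕ → ℝ) :
    ∑ m ∈ Icc 1 N, ic (e ∣ m) * F m = ∑ k ∈ Icc 1 (N / e), F (e * k) := by
  classical
  rw [sum_ic_mul]
  have h : (Icc 1 N).filter (fun m => e ∣ m) = (Icc 1 (N / e)).image (fun k => e * k) := by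
    ext m
    simp only [mem_filter, mem_Icc, mem_image]
    constructor
    · rintro ⟨⟨h1, h2⟩, k, rfl⟩
      refine ⟨k, ⟨Nat.pos_of_mul_pos_left h1, ?_⟩, rfl⟩
      rw [Nat.le_div_iff_mul_le he, mul_comm]
      exact h2
    · rintro ⟨k, ⟨h1, h2⟩, rfl⟩
      rw [Nat.le_div_iff_mul_le he, mul_comm] at h2
      exact ⟨⟨Nat.mul_pos he h1, h2⟩, dvd_mul_right e k⟩
  rw [h, sum_image]
  intro a _ b _ hab
  exact Nat.eq_of_mul_eq_mul_left he hab

/-- The number of middle divisors. -/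
theorem b1_mdc (z E N m : ℕ) (hE : 0 < E) (hm : 1 ≤ m) (hmN : m ≤ N) :
    mdc z E m ≤ ∑ e ∈ Ioc E (N / E), ic (e ∣ m ∧ Rough z e) := by
  classical
  unfold mdc
  rw [Nat.sum_divisorsAntidiagonal (f := fun a b => ic (E < a ∧ E < b)), sum_ic, sum_ic]
  have hsub : (rp z m).divisors.filter (fun d => E < d ∧ E < rp z m / d) ⊆
      (Ioc E (N / E)).filter (fun e => e ∣ m ∧ Rough z e) := by
    intro d hd
    simp only [mem_filter, Nat.mem_divisors, mem_Ioc] at hd ⊢
    obtain ⟨⟨h1, h2⟩, h3, h4⟩ := hd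
    have hdm : d ∣ m := h1.trans (rp_dvd z m)
    refine ⟨⟨h3, ?_⟩, hdm, rough_dvd (rough_rp z m) h1⟩
    rw [Nat.le_div_iff_mul_le hE]
    calc d * E ≤ d * (rp z m / d) := Nat.mul_le_mul_left d h4.le
      _ = rp z m := Nat.mul_div_cancel' h1
      _ ≤ m := Nat.le_of_dvd hm (rp_dvd z m)
      _ ≤ N := hmN
  exact_mod_cast card_le_card hsub

/-- The weight. -/
noncomputable def b1_A (z m : ℕ) : ℝ := ic (Good 0 z m) * (1 / 2 : ℝ) ^ Om z m

theorem b1_A_nonneg (z m : ℕ) : 0 ≤ b1_A z m :=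
  mul_nonneg (ic_nonneg _) (by positivity)

theorem b1_A_mul (z e k : ℕ) (he : 0 < e) (hk : 0 < k) :
    b1_A z (e * k) ≤ (1 / 2 : ℝ) ^ Om z e * b1_A z k := by
  unfold b1_A
  rw [Om_mul z he.ne' hk.ne', pow_add]
  have h1 : ic (Good 0 z (e * k)) ≤ ic (Good 0 z k) :=
    ic_mono (fun h => ((good_mul _ _ _ _).1 h).2)
  have h2 : (0 : ℝ) ≤ (1 / 2 : ℝ) ^ Om z e * (1 / 2 : ℝ) ^ Om z k := by positivity
  calc ic (Good 0 z (e * k)) * ((1 / 2 : ℝ) ^ Om z e * (1 / 2 : ℝ) ^ Om z k)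
      ≤ ic (Good 0 z k) * ((1 / 2 : ℝ) ^ Om z e * (1 / 2 : ℝ) ^ Om z k) :=
        mul_le_mul_of_nonneg_right h1 h2
    _ = _ := by ring

theorem b1_step (z E N K : ℕ) (hE : 0 < E) :
    ∑ m ∈ Icc 1 N, ic (Good 0 z m ∧ Om z m ≤ K) * mdc z E m ≤
      2 ^ K * ∑ e ∈ Ioc E (N / E), ic (Rough z e) * (1 / 2 : ℝ) ^ Om z e *
        ∑ k ∈ Icc 1 (N / e), b1_A z k := by
  classical
  have h1 : ∀ m ∈ Icc 1 N, ic (Good 0 z m ∧ Om z m ≤ K) * mdc z E m ≤
      2 ^ K * ∑ e ∈ Ioc E (N / E), ic (Rough z e) * (ic (e ∣ m) * b1_A z m) := by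
    intro m hm
    rw [mem_Icc] at hm
    have h2 := b1_mdc z E N m hE hm.1 hm.2
    have h3 : ic (Good 0 z m ∧ Om z m ≤ K) ≤ 2 ^ K * b1_A z m := by
      by_cases h : Good 0 z m ∧ Om z m ≤ K
      · rw [ic_pos h]
        unfold b1_A
        rw [ic_pos h.1, one_mul, one_div, inv_pow]
        rw [← div_eq_mul_inv, le_div_iff₀ (by positivity), one_mul]
        exact pow_le_pow_right₀ (by norm_num) h.2
      · rw [ic_neg h]
        have := b1_A_nonneg z m
        positivity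
    have h4 : (0 : ℝ) ≤ ∑ e ∈ Ioc E (N / E), ic (e ∣ m ∧ Rough z e) :=
      sum_nonneg fun _ _ => ic_nonneg _
    calc ic (Good 0 z m ∧ Om z m ≤ K) * mdc z E m
        ≤ ic (Good 0 z m ∧ Om z m ≤ K) * ∑ e ∈ Ioc E (N / E), ic (e ∣ m ∧ Rough z e) :=
          mul_le_mul_of_nonneg_left h2 (ic_nonneg _)
      _ ≤ 2 ^ K * b1_A z m * ∑ e ∈ Ioc E (N / E), ic (e ∣ m ∧ Rough z e) :=
          mul_le_mul_of_nonneg_right h3 h4
      _ = 2 ^ K * ∑ e ∈ Ioc E (N / E), ic (Rough z e) * (ic (e ∣ m) * b1_A z m) := by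
          rw [mul_assoc, mul_sum]
          congr 1
          refine sum_congr rfl fun e _ => ?_
          rw [ic_and]
          ring
  calc ∑ m ∈ Icc 1 N, ic (Good 0 z m ∧ Om z m ≤ K) * mdc z E m
      ≤ ∑ m ∈ Icc 1 N, 2 ^ K * ∑ e ∈ Ioc E (N / E), ic (Rough z e) * (ic (e ∣ m) * b1_A z m) :=
        sum_le_sum h1
    _ = 2 ^ K * ∑ e ∈ Ioc E (N / E), ic (Rough z e) * ∑ m ∈ Icc 1 N, ic (e ∣ m) * b1_A z m := by
        rw [← mul_sum, sum_comm]
        congr 1
        refine sum_congr rfl fun e _ => ?_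
        rw [mul_sum]
    _ ≤ _ := by
        refine mul_le_mul_of_nonneg_left ?_ (by positivity)
        refine sum_le_sum fun e he => ?_
        rw [mem_Ioc] at he
        have he0 : 0 < e := by omega
        rw [b1_mult N e he0, mul_assoc]
        refine mul_le_mul_of_nonneg_left ?_ (ic_nonneg _)
        rw [mul_sum]
        refine sum_le_sum fun k hk => ?_
        rw [mem_Icc] at hk
        exact b1_A_mul z e k he0 hk.1

theorem pf_B1 (hGV : T_GV) (hRL : T_RL) : T_B1 := by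
  obtain ⟨Cg, hCg, hG⟩ := hGV
  obtain ⟨Cr, hCr, hR⟩ := hRL
  refine ⟨3 * Cg * Cr, by positivity, ?_⟩
  intro z E N K hz hzE hEN hNE
  have hE0 : 0 < E := by omega
  refine le_trans (b1_step z E N K hE0) ?_
  have hzR : (1 : ℝ) < z := by exact_mod_cast (by omega : 1 < z)
  have hER : (1 : ℝ) < E := by exact_mod_cast (by omega : 1 < E)
  have hE0R : (0 : ℝ) < E := by linarith
  have hN0 : 0 < N := lt_of_lt_of_le (by positivity) hEN
  have hN0R : (0 : ℝ) < N := by exact_mod_cast hN0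
  have hlz : 0 < Real.log z := Real.log_pos hzR
  have hlE : 0 < Real.log E := Real.log_pos hER
  have hlzE : Real.log z ≤ Real.log E :=
    Real.log_le_log (by linarith) (by exact_mod_cast hzE)
  have hlN3 : Real.log N ≤ 3 * Real.log E := by
    have h1 : (N : ℝ) ≤ (E : ℝ) ^ 3 := by exact_mod_cast hNE
    have h2 := Real.log_le_log hN0R h1
    rwa [Real.log_pow, Nat.cast_ofNat] at h2
  have hEltN : E ≤ N := le_trans (by nlinarith) hEN
  have hlN : 0 < Real.log N := by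
    refine Real.log_pos ?_
    have : (E : ℝ) ≤ N := by exact_mod_cast hEltN
    linarith
  set q : ℝ := (Real.log E / Real.log z) ^ (-(1 / 2 : ℝ)) with hq
  have hbase : 0 < Real.log E / Real.log z := div_pos hlE hlz
  have hq0 : 0 ≤ q := by positivity
  have hqq : q * q ≤ 3 * (Real.log z / Real.log N) := by
    have h1 : q * q = (Real.log E / Real.log z)⁻¹ := by
      rw [hq, ← Real.rpow_add hbase, ← Real.rpow_neg_one]
      norm_num
    rw [h1, inv_div, mul_div_assoc', div_le_div_iff₀ hlE hlN]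
    nlinarith
  -- the inner sums
  have hinner : ∀ e ∈ Ioc E (N / E), ∑ k ∈ Icc 1 (N / e), b1_A z k ≤
      Cg * (N / e) / √(Real.log z) * q := by
    intro e he
    rw [mem_Ioc] at he
    have he0 : 0 < e := by omega
    have he0R : (0 : ℝ) < e := by exact_mod_cast he0
    have hEx : E ≤ N / e := by
      rw [Nat.le_div_iff_mul_le he0, mul_comm]
      exact (Nat.le_div_iff_mul_le hE0).1 he.2
    have h1 := hG (1 / 2) le_rfl (by norm_num) z (N / e) hz (le_trans hzE hEx)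
    have h2 : ((N / e : ℕ) : ℝ) ≤ (N : ℝ) / e := Nat.cast_div_le
    have h3 : (Real.log ((N / e : ℕ) : ℝ) / Real.log z) ^ ((1 / 2 : ℝ) - 1) ≤ q := by
      have e1 : (1 / 2 : ℝ) - 1 = -(1 / 2 : ℝ) := by norm_num
      rw [e1, hq]
      refine Real.rpow_le_rpow_of_nonpos hbase ?_ (by norm_num)
      refine div_le_div_of_nonneg_right ?_ hlz.le
      exact Real.log_le_log hE0R (by exact_mod_cast hEx)
    refine le_trans h1 ?_
    have h5 : 0 ≤ (Real.log ((N / e : ℕ) : ℝ) / Real.log z) ^ ((1 / 2 : ℝ) - 1) := by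
      refine Real.rpow_nonneg ?_ _
      refine div_nonneg (Real.log_natCast_nonneg _) hlz.le
    refine mul_le_mul ?_ h3 h5 (by positivity)
    refine div_le_div_of_nonneg_right ?_ (Real.sqrt_nonneg _)
    exact mul_le_mul_of_nonneg_left h2 hCg.le
  -- the outer sum
  have hX : E ≤ N / E := by
    rw [Nat.le_div_iff_mul_le hE0]
    nlinarith
  have hX0 : 0 < N / E := by omega
  have hX0R : (0 : ℝ) < ((N / E : ℕ) : ℝ) := by exact_mod_cast hX0
  have hXE : ((N / E : ℕ) : ℝ) ≤ (N : ℝ) / E := Nat.cast_div_le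
  have hlogX : Real.log ((N / E : ℕ) : ℝ) ≤ 3 * Real.log E := by
    have h1 : ((N / E : ℕ) : ℝ) ≤ (E : ℝ) ^ 3 := by
      have h2 : N / E ≤ E ^ 3 := le_trans (Nat.div_le_self N E) hNE
      exact_mod_cast h2
    have h2 := Real.log_le_log hX0R h1
    rwa [Real.log_pow, Nat.cast_ofNat] at h2
  have houter := hR (1 / 2) le_rfl (by norm_num) z E (N / E) hz hzE hX hlogX
  have e2 : (1 / 2 : ℝ) - 1 = -(1 / 2 : ℝ) := by norm_num
  rw [e2, ← hq] at houter
  have hlogle : Real.log (((N / E : ℕ) : ℝ) / E) ≤ Real.log ((N : ℝ) / E ^ 2) := by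
    refine Real.log_le_log (by positivity) ?_
    rw [pow_two, ← div_div]
    exact div_le_div_of_nonneg_right hXE hE0R.le
  have hfac : 0 ≤ 1 + Real.log ((N : ℝ) / E ^ 2) / Real.log z := by
    have h1 : 0 ≤ Real.log ((N : ℝ) / E ^ 2) := by
      refine Real.log_nonneg ?_
      rw [le_div_iff₀ (by positivity), one_mul]
      exact_mod_cast hEN
    positivity
  have houter2 : ∑ e ∈ Ioc E (N / E), ic (Rough z e) * (1 / 2 : ℝ) ^ Om z e / e ≤
      Cr * (1 + Real.log ((N : ℝ) / E ^ 2) / Real.log z) * q := by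
    refine le_trans houter ?_
    refine mul_le_mul_of_nonneg_right ?_ hq0
    refine mul_le_mul_of_nonneg_left ?_ hCr.le
    have := div_le_div_of_nonneg_right hlogle hlz.le
    linarith
  have hS0 : 0 < √(Real.log z) := Real.sqrt_pos.2 hlz
  calc 2 ^ K * ∑ e ∈ Ioc E (N / E), ic (Rough z e) * (1 / 2 : ℝ) ^ Om z e *
        ∑ k ∈ Icc 1 (N / e), b1_A z k
      ≤ 2 ^ K * ∑ e ∈ Ioc E (N / E), ic (Rough z e) * (1 / 2 : ℝ) ^ Om z e *
        (Cg * (N / e) / √(Real.log z) * q) := by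
        refine mul_le_mul_of_nonneg_left ?_ (by positivity)
        refine sum_le_sum fun e he => ?_
        exact mul_le_mul_of_nonneg_left (hinner e he)
          (mul_nonneg (ic_nonneg _) (by positivity))
    _ = 2 ^ K * (Cg * N / √(Real.log z) * q) *
        ∑ e ∈ Ioc E (N / E), ic (Rough z e) * (1 / 2 : ℝ) ^ Om z e / e := by
        have e3 : ∑ e ∈ Ioc E (N / E), ic (Rough z e) * (1 / 2 : ℝ) ^ Om z e *
            (Cg * (N / e) / √(Real.log z) * q) = (Cg * N / √(Real.log z) * q) *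
            ∑ e ∈ Ioc E (N / E), ic (Rough z e) * (1 / 2 : ℝ) ^ Om z e / e := by
          rw [mul_sum]
          refine sum_congr rfl fun e _ => ?_
          ring
        rw [e3]
        ring
    _ ≤ 2 ^ K * (Cg * N / √(Real.log z) * q) *
        (Cr * (1 + Real.log ((N : ℝ) / E ^ 2) / Real.log z) * q) := by
        refine mul_le_mul_of_nonneg_left houter2 ?_
        positivity
    _ = (Cg * N / √(Real.log z) * (Cr * (1 + Real.log ((N : ℝ) / E ^ 2) / Real.log z)) * 2 ^ K) *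
        (q * q) := by ring
    _ ≤ (Cg * N / √(Real.log z) * (Cr * (1 + Real.log ((N : ℝ) / E ^ 2) / Real.log z)) * 2 ^ K) *
        (3 * (Real.log z / Real.log N)) := by
        refine mul_le_mul_of_nonneg_left hqq ?_
        positivity
    _ = 3 * Cg * Cr * N / √(Real.log z) * (1 + Real.log ((N : ℝ) / E ^ 2) / Real.log z) *
        (Real.log z / Real.log N) * 2 ^ K := by ring

end Pool.Agent.H86.MS
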