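import Pool.Agent.H44.MS.Basics

/-!
# The least coordinate in a representation by three squares: the parameters exist
-/

set_option autoImplicit false

namespace Pool.Agent.H86.MS

open Finset Real
open Pool.Agent.H44.MS

theorem succ_pow_le (u z : ℕ) (h3 : 3 ≤ z) (hu : u ≤ z) : (z + 1) ^ u ≤ z ^ (u + 1) := by
  have hz : (0 : ℝ) < z := by
    have : (3 : ℝ) ≤ z := by exact_mod_cast h3
    linarith
  have h1 : (1 + 1 / (z : ℝ)) ^ u ≤ 3 := by
    have h2 : 1 + 1 / (z : ℝ) ≤ Real.exp (1 / z) := by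
      have := Real.add_one_le_exp (1 / (z : ℝ))
      linarith
    calc (1 + 1 / (z : ℝ)) ^ u ≤ (Real.exp (1 / z)) ^ u :=
          pow_le_pow_left₀ (by positivity) h2 u
      _ = Real.exp (u * (1 / z)) := by rw [← Real.exp_nat_mul]
      _ ≤ Real.exp 1 := by
          refine Real.exp_le_exp.2 ?_
          rw [mul_one_div, div_le_one hz]
          exact_mod_cast hu
      _ ≤ 3 := by
          have := Real.exp_one_lt_d9
          linarith
  have h4 : ((z : ℝ) + 1) ^ u ≤ (z : ℝ) ^ (u + 1) := by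
    have e1 : ((z : ℝ) + 1) = z * (1 + 1 / z) := by
      field_simp
    rw [e1, mul_pow, pow_succ]
    have h5 : (3 : ℝ) ≤ z := by exact_mod_cast h3
    gcongr
    linarith
  exact_mod_cast h4

theorem pf_PAR : T_PAR := by
  classical
  intro s Z hs
  set u : ℕ := s ^ 100 with hu
  have hu1 : 1 ≤ u := Nat.one_le_pow _ _ hs
  set W : ℕ := max Z (max u 3) with hW
  refine ⟨W ^ u, ?_⟩
  intro N hN
  have hWN : W ≤ N := le_trans (Nat.le_self_pow (by omega) W) hN
  set z : ℕ := Nat.findGreatest (fun z => z ^ u ≤ N) N with hz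
  have hzu : z ^ u ≤ N := by
    have := Nat.findGreatest_spec (P := fun z => z ^ u ≤ N) hWN hN
    exact this
  have hWz : W ≤ z := Nat.le_findGreatest hWN hN
  have hup : N < (z + 1) ^ u := by
    by_contra h
    push Not at h
    have h1 : z + 1 ≤ N := le_trans (Nat.le_self_pow (by omega) (z + 1)) h
    have h2 : z + 1 ≤ z := Nat.le_findGreatest h1 h
    omega
  refine ⟨z, Nat.sqrt N / z ^ (4 * s + 5), le_trans (le_max_left _ _) hWz, hzu, ?_, rfl⟩
  have h3 : 3 ≤ z := le_trans (le_trans (le_max_right _ _) (le_max_right _ _)) hWz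
  have h4 : u ≤ z := le_trans (le_trans (le_max_left _ _) (le_max_right _ _)) hWz
  exact le_trans hup.le (succ_pow_le u z h3 h4)

end Pool.Agent.H86.MS
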